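import Pool.Agent.Helper82.BR.St

/-!
# Project BR, module PR: products of distinct elements
-/

set_option autoImplicit false

namespace Pool.Agent.Helper16.BR

open Pool.Agent.Helper82.BR Finset

/-- PR. -/
theorem hPR : StPR := by
  classical
  intro A h0 h3
  by_contra hcon
  push Not at hcon
  set Sg : Finset ℂ := (A.offDiag).image (fun x => x.1 * x.2) with hSg
  have hne : ∀ p ∈ A, p ≠ 0 := fun p hp h => h0 (h ▸ hp)
  have hT : ∀ p ∈ A, (A.erase p).image (fun q => p * q) = Sg := by
    intro p hp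
    refine Finset.eq_of_subset_of_card_le ?_ ?_
    · intro z hz
      obtain ⟨q, hq, rfl⟩ := Finset.mem_image.1 hz
      obtain ⟨hqp, hqA⟩ := Finset.mem_erase.1 hq
      exact Finset.mem_image.2 ⟨(p, q), Finset.mem_offDiag.2 ⟨hp, hqA, fun h => hqp h.symm⟩, rfl⟩
    · rw [Finset.card_image_of_injective _ (mul_right_injective₀ (hne p hp)), Finset.card_erase_of_mem hp]
      omega
  have hP : ∏ q ∈ A, q ≠ 0 := Finset.prod_ne_zero_iff.2 hne
  have hroot : ∀ p ∈ A, p ^ (A.card - 2) = (∏ z ∈ Sg, z) / ∏ q ∈ A, q := by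
    intro p hp
    have e1 : ∏ z ∈ Sg, z = p ^ (A.card - 1) * ∏ q ∈ A.erase p, q := by
      rw [← hT p hp, Finset.prod_image (fun x _ y _ h => mul_right_injective₀ (hne p hp) h),
        Finset.prod_mul_distrib, Finset.prod_const, Finset.card_erase_of_mem hp]
    have e2 : p * ∏ q ∈ A.erase p, q = ∏ q ∈ A, q := Finset.mul_prod_erase A (fun q => q) hp
    have e3 : A.card - 1 = (A.card - 2) + 1 := by omega
    rw [eq_div_iff hP, e1, ← e2, e3, pow_succ]
    ring
  have hsub : A ⊆ (Polynomial.nthRoots (A.card - 2) ((∏ z ∈ Sg, z) / ∏ q ∈ A, q)).toFinset := by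
    intro p hp
    rw [Multiset.mem_toFinset, Polynomial.mem_nthRoots (by omega)]
    exact hroot p hp
  have h1 := (Finset.card_le_card hsub).trans (Multiset.toFinset_card_le _)
  have h2 := Polynomial.card_nthRoots (A.card - 2) ((∏ z ∈ Sg, z) / ∏ q ∈ A, q)
  omega

end Pool.Agent.Helper16.BR
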